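import Mathlib
import Pool.Agent.W2helper42.HL.Final2
import Pool.Agent.W2helper89.HL.SpPts
import Pool.Agent.W2helper89.HL.Sc
import Pool.Agent.W2helper71.HL.NCh

/-!
# The Zilber-Pink conjecture for `Y(1)^n` and the equations `x_a + x_b = x_c + x_d`

`Y(1)^n` is the affine space `ℂ^ι`, `ι` a set of `n` indices. The Zilber-Pink conjecture for all
subvarieties of all `Y(1)^n` (question Q1) is equivalent to each of the following statements.

* The Zilber-Pink conjecture for the linear subspaces which are given by equations
  `x_a + x_b = x_c + x_d` between the coordinates.
* The finiteness of the maximal atypical *points* on these subspaces, cut by hyperplanes `x_s = c_s`,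
  where the numbers `c_s` are algebraically independent over `ℚ`.
* For all closed sets `C` and all `d`, only finitely many irreducible closed subsets `A` of `C` are
  maximal among those which lie in a special subvariety of dimension less than `dim A + d`.

Proof. The sum of the three values of `j` which are 2-isogenous to `u = j(τ)` is
`u² + β u + γ` with integers `β`, `γ` (`β = -1488`, `γ = 162000`). So on suitable special
subvarieties the squares are linear forms, and every system of polynomial equations becomes a system
of linear equations in more variables. To get no accidental special relations between the new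
coordinates one has to add generic masks (`u = (A + p)` and so on), and these are eliminated again
with the principal ideal theorem: every new equation `Φ₂ = 0` decreases the special dimension by one.
A set given by more equations than its codimension is first replaced by the zeros of
`∑_j λ_ij f_j`, with new coordinates `λ_ij`. The coefficients of the equations are coordinates, too:
so everything can be defined over `ℚ`; and with the special points `j(ρ) = 0`, `j(i) = 1728` and
chains of masks every linear equation over `ℚ` becomes a system of equations
`x_a + x_b = x_c + x_d`. Finally a maximal atypical subvariety of dimension `m` is cut to points by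
`m` hyperplanes `x_s = c_s`, `s` a transcendence basis; that these points belong to finitely many
subvarieties is then a statement over `ℚ(c)`.
-/

set_option autoImplicit false

namespace Pool.Agent.Results.MP_130685_nt.AdditiveQuadruples

open MvPolynomial
open Pool.Agent.W2helper42.HL

/-- **The Zilber-Pink conjecture for `Y(1)^n` is equivalent to the Zilber-Pink conjecture for the
subspaces given by equations `x_a + x_b = x_c + x_d`, and to the finiteness of the maximal atypical
points on the sections of these subspaces by generic hyperplanes `x_s = c_s`.** -/
theorem result : List.TFAE [
    ∀ (ι : Type) [Finite ι] (V : Set (ι → ℂ)), Irr V → ZilberPink V,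
    ∀ (ι : Type) [Finite ι] (E : Finset (ι × ι × ι × ι)),
      ZilberPink {x : ι → ℂ | ∀ e ∈ E, x e.1 + x e.2.1 = x e.2.2.1 + x e.2.2.2},
    ∀ (ι : Type) [Finite ι] (E : Finset (ι × ι × ι × ι)) (B : Finset ι) (c : ι → ℂ),
      AlgebraicIndependent ℚ (fun s : B => c s) →
      ZilberPinkPoints {x : ι → ℂ | (∀ e ∈ E, x e.1 + x e.2.1 = x e.2.2.1 + x e.2.2.2) ∧
        ∀ s ∈ B, x s = c s},
    ∀ (ι : Type) [Finite ι] (F : Set (MvPolynomial ι ℂ)) (d : ℕ),
      FiniteDefect {x : ι → ℂ | ∀ f ∈ F, eval x f = 0} d] :=
  quads_points Pool.Agent.W2helper89.HL.n_sp
    (Pool.Agent.W2helper89.HL.n_sc jf af sf) (Pool.Agent.W2helper89.HL.n_ext jf af sf)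
    (Pool.Agent.W2helper71.HL.n_ch jf af (r_main jf af sf))

end Pool.Agent.Results.MP_130685_nt.AdditiveQuadruples
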